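import Mathlib

set_option autoImplicit false
set_option linter.unusedSectionVars false

/-!
# Twisted Kummer theory, group theoretic part (helper218, for project TH of helper500)
-/

namespace Pool.Agent.H218.TH.TCB2

open MulAction

section

variable {G A T ι : Type} [Group G] [CommRing A] [IsDomain A] [MulSemiringAction G A]
  [MulAction G T] [Fintype T] [DecidableEq T]

/-- the condition on a Frobenius element, pattern `c` -/
def Bad (r : ℕ) (b : ι → T → A) (c : T → ℕ) (σ : G) : Prop :=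
  (∀ t, c t ≠ 0 → ∀ ζ : A, ζ ^ r = 1 → σ ^ (period σ t) • ζ = ζ) ∧
  (∀ t, c t ≠ 0 → ∀ i, 0 < i → i < period σ t → c (σ ^ i • t) = 0) ∧
  ∀ a, ∀ y : T → A, (∀ t, y t ^ r = b a t) →
    ∏ t, (σ ^ (period σ t) • y t) ^ c t = ∏ t, y t ^ c t

/-- some pattern -/
def BadAll (r : ℕ) (b : ι → T → A) : Set G :=
  {σ | ∃ c : T → ℕ, (∀ t, c t < r) ∧ (∃ t, c t ≠ 0) ∧ Bad r b c σ}

theorem period_conj (σ τ : G) (t : T) :
    period (τ * σ * τ⁻¹) t = period σ (τ⁻¹ • t) := by
  apply Nat.dvd_antisymm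
  · rw [← pow_smul_eq_iff_period_dvd, conj_pow, mul_smul, mul_smul, pow_period_smul,
      smul_inv_smul]
  · rw [← pow_smul_eq_iff_period_dvd]
    have h : (τ * σ * τ⁻¹) ^ (period (τ * σ * τ⁻¹) t) • t = t := pow_period_smul _ _
    rw [conj_pow, mul_smul, mul_smul] at h
    rw [eq_inv_smul_iff]
    exact h

theorem Bad.conj {r : ℕ} {b : ι → T → A} (hb : ∀ (g : G) a t, g • b a t = b a (g • t))
    {c : T → ℕ} {σ : G} (h : Bad r b c σ) (τ : G) :
    Bad r b (fun t => c (τ⁻¹ • t)) (τ * σ * τ⁻¹) := by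
  obtain ⟨h1, h2, h3⟩ := h
  refine ⟨?_, ?_, ?_⟩
  · intro t ht ζ hζ
    rw [period_conj, conj_pow, mul_smul, mul_smul, h1 _ ht, smul_inv_smul]
    rw [← smul_pow', hζ, smul_one]
  · intro t ht i hi1 hi2
    rw [period_conj] at hi2
    have h4 := h2 _ ht i hi1 hi2
    show c (τ⁻¹ • ((τ * σ * τ⁻¹) ^ i • t)) = 0
    rw [conj_pow, mul_smul, mul_smul, inv_smul_smul]
    exact h4
  · intro a y hy
    set y' : T → A := fun t => τ⁻¹ • y (τ • t) with hy'
    have hy'r : ∀ t, y' t ^ r = b a t := by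
      intro t
      rw [hy']
      simp only
      rw [← smul_pow', hy, hb, inv_smul_smul]
    have h4 := h3 a y' hy'r
    have h5 : ∀ t, y t = τ • y' (τ⁻¹ • t) := by
      intro t
      rw [hy']
      simp only
      rw [smul_inv_smul, smul_inv_smul]
    have h6 : ∏ t, ((τ * σ * τ⁻¹) ^ (period (τ * σ * τ⁻¹) t) • y t) ^ c (τ⁻¹ • t) =
        ∏ t, τ • (σ ^ (period σ (τ⁻¹ • t)) • y' (τ⁻¹ • t)) ^ c (τ⁻¹ • t) := by
      apply Finset.prod_congr rfl
      intro t _
      rw [period_conj, conj_pow, mul_smul, mul_smul, smul_pow']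
      congr 3
      rw [h5 t, inv_smul_smul]
    have h7 : ∏ t, y t ^ c (τ⁻¹ • t) = ∏ t, τ • (y' (τ⁻¹ • t)) ^ c (τ⁻¹ • t) := by
      apply Finset.prod_congr rfl
      intro t _
      rw [smul_pow', ← h5 t]
    have h8 : ∀ f : T → A, ∏ t, f (τ⁻¹ • t) = ∏ t, f t := by
      intro f
      exact Fintype.prod_equiv (MulAction.toPerm τ⁻¹) _ _ (fun t => rfl)
    have h9 := congrArg (fun w => τ • w) h4
    simp only [Finset.smul_prod'] at h9
    rw [h6, h7, h8 (fun t => τ • (σ ^ (period σ t) • y' t) ^ c t),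
      h8 (fun t => τ • (y' t) ^ c t)]
    exact h9

theorem BadAll.conj {r : ℕ} {b : ι → T → A} (hb : ∀ (g : G) a t, g • b a t = b a (g • t))
    {σ : G} (h : σ ∈ BadAll r b) (τ : G) : τ * σ * τ⁻¹ ∈ BadAll r b := by
  obtain ⟨c, h1, ⟨t, ht⟩, h3⟩ := h
  refine ⟨_, fun t => h1 _, ⟨τ • t, ?_⟩, h3.conj hb τ⟩
  rw [inv_smul_smul]
  exact ht

/-- the subgroup acting trivially on everything -/
def Nn (G : Type) [Group G] [MulSemiringAction G A] [MulAction G T] (r : ℕ) (b : ι → T → A) :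
    Subgroup G where
  carrier := {σ | (∀ t : T, σ • t = t) ∧ (∀ ζ : A, ζ ^ r = 1 → σ • ζ = ζ) ∧
    ∀ a t (y : A), y ^ r = b a t → σ • y = y}
  one_mem' := ⟨fun t => one_smul _ _, fun ζ _ => one_smul _ _, fun a t y _ => one_smul _ _⟩
  mul_mem' := by
    rintro σ τ ⟨h1, h2, h3⟩ ⟨k1, k2, k3⟩
    refine ⟨fun t => ?_, fun ζ hζ => ?_, fun a t y hy => ?_⟩
    · rw [mul_smul, k1, h1]
    · rw [mul_smul, k2 ζ hζ, h2 ζ hζ]
    · rw [mul_smul, k3 a t y hy, h3 a t y hy]
  inv_mem' := by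
    rintro σ ⟨h1, h2, h3⟩
    refine ⟨fun t => ?_, fun ζ hζ => ?_, fun a t y hy => ?_⟩
    · rw [inv_smul_eq_iff, h1]
    · rw [inv_smul_eq_iff, h2 ζ hζ]
    · rw [inv_smul_eq_iff, h3 a t y hy]

theorem Nn_normal {r : ℕ} {b : ι → T → A} (hb : ∀ (g : G) a t, g • b a t = b a (g • t)) :
    (Nn (T := T) G r b).Normal := by
  refine ⟨fun σ hσ g => ?_⟩
  obtain ⟨h1, h2, h3⟩ := hσ
  refine ⟨fun t => ?_, fun ζ hζ => ?_, fun a t y hy => ?_⟩
  · rw [mul_smul, mul_smul, h1, smul_inv_smul]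
  · rw [mul_smul, mul_smul, h2, smul_inv_smul]
    rw [← smul_pow', hζ, smul_one]
  · rw [mul_smul, mul_smul, h3 a (g⁻¹ • t), smul_inv_smul]
    rw [← smul_pow', hy, hb]

theorem pow_mul_mem {N : Subgroup G} (hN : N.Normal) (σ : G) {u : G} (hu : u ∈ N) (n : ℕ) :
    ∃ u' ∈ N, (σ * u) ^ n = σ ^ n * u' := by
  refine ⟨(σ ^ n)⁻¹ * (σ * u) ^ n, ?_, by group⟩
  rw [← QuotientGroup.eq]
  rw [QuotientGroup.mk_pow, QuotientGroup.mk_pow, QuotientGroup.mk_mul,
    (QuotientGroup.eq_one_iff u).2 hu, mul_one]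

theorem Bad.mul {r : ℕ} {b : ι → T → A} (hb : ∀ (g : G) a t, g • b a t = b a (g • t))
    {c : T → ℕ} {σ : G} (h : Bad r b c σ) {u : G} (hu : u ∈ Nn (T := T) G r b) :
    Bad r b c (σ * u) := by
  have hN := Nn_normal (T := T) (r := r) hb
  have hpow : ∀ n (t : T), (σ * u) ^ n • t = σ ^ n • t := by
    intro n t
    obtain ⟨u', hu', he⟩ := pow_mul_mem hN σ hu n
    rw [he, mul_smul, hu'.1]
  have hper : ∀ t : T, period (σ * u) t = period σ t := by
    intro t
    apply Nat.dvd_antisymm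
    · rw [← pow_smul_eq_iff_period_dvd, hpow, pow_period_smul]
    · rw [← pow_smul_eq_iff_period_dvd, ← hpow, pow_period_smul]
  obtain ⟨h1, h2, h3⟩ := h
  refine ⟨?_, ?_, ?_⟩
  · intro t ht ζ hζ
    obtain ⟨u', hu', he⟩ := pow_mul_mem hN σ hu (period σ t)
    rw [hper, he, mul_smul, hu'.2.1 ζ hζ, h1 t ht ζ hζ]
  · intro t ht i hi1 hi2
    rw [hper] at hi2
    rw [hpow]
    exact h2 t ht i hi1 hi2
  · intro a y hy
    rw [← h3 a y hy]
    apply Finset.prod_congr rfl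
    intro t _
    obtain ⟨u', hu', he⟩ := pow_mul_mem hN σ hu (period σ t)
    rw [hper, he, mul_smul, hu'.2.2 a t (y t) (hy t)]

theorem BadAll.mul {r : ℕ} {b : ι → T → A} (hb : ∀ (g : G) a t, g • b a t = b a (g • t))
    {σ : G} (h : σ ∈ BadAll r b) {u : G} (hu : u ∈ Nn (T := T) G r b) :
    σ * u ∈ BadAll r b := by
  obtain ⟨c, h1, h2, h3⟩ := h
  exact ⟨c, h1, h2, h3.mul hb hu⟩

/-- `h` acts on the `r`-th roots of `b a t0` by `z ^ w a`, and trivially on the other ones -/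
structure Act (r : ℕ) (b : ι → T → A) (z : A) (t0 : T) (h : G) (w : ι → ZMod r) : Prop where
  tr : ∀ t : T, h • t = t
  one : ∀ ζ : A, ζ ^ r = 1 → h • ζ = ζ
  ne : ∀ a t (y : A), t ≠ t0 → y ^ r = b a t → h • y = y
  eq : ∀ a (y : A), y ^ r = b a t0 → h • y = z ^ (w a).val * y

theorem val_add {r : ℕ} {z : A} (hz : z ^ r = 1) (hr : 0 < r) (s t : ZMod r) :
    z ^ (s + t).val = z ^ s.val * z ^ t.val := by
  have : NeZero r := ⟨hr.ne'⟩
  rw [ZMod.val_add, ← pow_add, ← pow_eq_pow_mod _ hz]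

theorem Act.mul {r : ℕ} {b : ι → T → A} {z : A} {t0 : T} (hz : z ^ r = 1) (hr : 0 < r)
    {h h' : G} {w w' : ι → ZMod r} (H : Act r b z t0 h w) (H' : Act r b z t0 h' w') :
    Act r b z t0 (h * h') (w + w') where
  tr t := by rw [mul_smul, H'.tr, H.tr]
  one ζ hζ := by rw [mul_smul, H'.one ζ hζ, H.one ζ hζ]
  ne a t y ht hy := by rw [mul_smul, H'.ne a t y ht hy, H.ne a t y ht hy]
  eq a y hy := by
    have h1 : (z ^ (w' a).val) ^ r = 1 := by rw [← pow_mul, mul_comm, pow_mul, hz, one_pow]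
    rw [mul_smul, H'.eq a y hy, smul_mul', H.one _ h1, H.eq a y hy, Pi.add_apply,
      val_add hz hr]
    ring

theorem Act.inv {r : ℕ} {b : ι → T → A} {z : A} {t0 : T} (hz : z ^ r = 1) (hr : 0 < r)
    {h : G} {w : ι → ZMod r} (H : Act r b z t0 h w) :
    Act r b z t0 h⁻¹ (-w) where
  tr t := by rw [inv_smul_eq_iff, H.tr]
  one ζ hζ := by rw [inv_smul_eq_iff, H.one ζ hζ]
  ne a t y ht hy := by rw [inv_smul_eq_iff, H.ne a t y ht hy]
  eq a y hy := by
    have h1 : (z ^ ((-w) a).val) ^ r = 1 := by rw [← pow_mul, mul_comm, pow_mul, hz, one_pow]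
    rw [inv_smul_eq_iff, smul_mul', H.one _ h1, H.eq a y hy, ← mul_assoc, ← val_add hz hr,
      Pi.neg_apply, neg_add_cancel]
    have : NeZero r := ⟨hr.ne'⟩
    rw [ZMod.val_zero, pow_zero, one_mul]

theorem pow_root {r : ℕ} {b : ι → T → A} (hb : ∀ (g : G) a t, g • b a t = b a (g • t))
    {σ : G} {a : ι} {t : T} {y : A} (hy : y ^ r = b a t) (n : ℕ) :
    (σ ^ n • y) ^ r = b a (σ ^ n • t) := by
  rw [← smul_pow', hy, hb]

/-- **Key lemma.** -/
theorem key {r : ℕ} (hr : r.Prime) {b : ι → T → A}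
    (hb : ∀ (g : G) a t, g • b a t = b a (g • t)) (hb0 : ∀ a t, b a t ≠ 0)
    (hroot : ∀ a t, ∃ y : A, y ^ r = b a t) {z : A} (hz : IsPrimitiveRoot z r)
    {c : T → ℕ} {t0 : T} (hlt : c t0 < r) (hc : c t0 ≠ 0) (hper : ∀ (σ : G) (t : T), 0 < period σ t)
    {σ h : G} {w : ι → ZMod r} (hσ : Bad r b c σ) (H : Act r b z t0 h w)
    (hσh : Bad r b c (σ * h)) : w = 0 := by
  have hzr : z ^ r = 1 := hz.pow_eq_one
  have hpow : ∀ n (t : T), (σ * h) ^ n • t = σ ^ n • t := by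
    intro n
    induction n with
    | zero => intro t; rw [pow_zero, pow_zero]
    | succ n ih =>
      intro t
      rw [pow_succ, pow_succ, mul_smul, mul_smul, mul_smul, H.tr, ih]
  have hpe : ∀ t : T, period (σ * h) t = period σ t := by
    intro t
    apply Nat.dvd_antisymm
    · rw [← pow_smul_eq_iff_period_dvd, hpow, pow_period_smul]
    · rw [← pow_smul_eq_iff_period_dvd, ← hpow, pow_period_smul]
  -- away from `t0`
  have hA : ∀ (a : ι) (t : T) (y : A), y ^ r = b a t → ∀ n, (∀ i < n, σ ^ i • t ≠ t0) →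
      (σ * h) ^ n • y = σ ^ n • y := by
    intro a t y hy n
    induction n with
    | zero => intro _; rw [pow_zero, pow_zero]
    | succ n ih =>
      intro hi
      rw [pow_succ', pow_succ', mul_smul, ih (fun i hin => hi i (by omega)), mul_smul,
        H.ne a (σ ^ n • t) (σ ^ n • y) (hi n (by omega)) (pow_root hb hy n), mul_smul]
  -- at `t0`
  have hB : ∀ (a : ι) (y : A), y ^ r = b a t0 → ∀ n, (∀ i, 0 < i → i < n + 1 → σ ^ i • t0 ≠ t0) →
      (σ * h) ^ (n + 1) • y = σ ^ (n + 1) • (z ^ (w a).val * y) := by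
    intro a y hy n
    have hy' : (z ^ (w a).val * y) ^ r = b a t0 := by
      rw [mul_pow, ← pow_mul, mul_comm (w a).val, pow_mul, hzr, one_pow, one_mul, hy]
    induction n with
    | zero =>
      intro _
      rw [zero_add, pow_one, pow_one, mul_smul, H.eq a y hy]
    | succ n ih =>
      intro hi
      rw [pow_succ', mul_smul, ih (fun i h1 h2 => hi i h1 (by omega)), mul_smul,
        H.ne a (σ ^ (n + 1) • t0) _ (hi (n + 1) (by omega) (by omega)) (pow_root hb hy' (n + 1)),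
        ← mul_smul, ← pow_succ']
  obtain ⟨s1, s2, s3⟩ := hσ
  obtain ⟨k1, k2, k3⟩ := hσh
  funext a
  choose y hy using fun t => hroot a t
  have e1 := s3 a y hy
  have e2 := k3 a y hy
  have e3 : ∀ t, ((σ * h) ^ (period (σ * h) t) • y t) ^ c t =
      (if t = t0 then z ^ ((w a).val * c t0) else 1) * (σ ^ (period σ t) • y t) ^ c t := by
    intro t
    rw [hpe]
    by_cases hct : c t = 0
    · have : t ≠ t0 := fun h => hc (h ▸ hct)
      rw [hct, pow_zero, pow_zero, if_neg this, one_mul]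
    · by_cases ht : t = t0
      · subst ht
        rw [if_pos rfl]
        obtain ⟨n, hn⟩ := Nat.exists_eq_succ_of_ne_zero (hper σ t).ne'
        have h5 := hB a (y t) (hy t) n (by
          intro i hi1 hi2
          exact pow_smul_ne_of_lt_period hi1 (by rw [hn]; exact hi2))
        rw [hn, Nat.succ_eq_add_one, h5, smul_mul', ← Nat.succ_eq_add_one, ← hn, s1 t hct
          (z ^ (w a).val) (by rw [← pow_mul, mul_comm, pow_mul, hzr, one_pow]), mul_pow, ← pow_mul]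
      · rw [if_neg ht, one_mul]
        rw [hA a t (y t) (hy t) (period σ t) (by
          intro i hi heq
          rcases Nat.eq_zero_or_pos i with h0 | h0
          · rw [h0, pow_zero, one_smul] at heq
            exact ht heq
          · have h6 := s2 t hct i h0 hi
            rw [heq] at h6
            exact hc h6)]
  rw [Finset.prod_congr rfl (fun t _ => e3 t), Finset.prod_mul_distrib, e1,
    Finset.prod_ite_eq' Finset.univ t0, if_pos (Finset.mem_univ _)] at e2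
  have hy0 : ∏ t, y t ^ c t ≠ 0 := by
    rw [Finset.prod_ne_zero_iff]
    intro t _
    apply pow_ne_zero
    intro h0
    apply hb0 a t
    rw [← hy t, h0, zero_pow hr.ne_zero]
  have e4 : z ^ ((w a).val * c t0) = 1 := by
    apply mul_right_cancel₀ hy0
    rw [e2, one_mul]
  have e5 := hz.dvd_of_pow_eq_one _ e4
  rcases (hr.dvd_mul).1 e5 with h7 | h7
  · have : NeZero r := ⟨hr.ne_zero⟩
    have h8 := ZMod.val_lt (w a)
    have h9 := Nat.eq_zero_of_dvd_of_lt h7 h8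
    rw [Pi.zero_apply]
    exact (ZMod.val_eq_zero _).1 h9
  · exact absurd (Nat.eq_zero_of_dvd_of_lt h7 hlt) hc

/-- the number of classes with a given pattern -/
theorem count_one [Fintype ι] {r : ℕ} (hr : r.Prime) {b : ι → T → A}
    (hb : ∀ (g : G) a t, g • b a t = b a (g • t)) (hb0 : ∀ a t, b a t ≠ 0)
    (hroot : ∀ a t, ∃ y : A, y ^ r = b a t) {z : A} (hz : IsPrimitiveRoot z r)
    {c : T → ℕ} {t0 : T} (hlt : c t0 < r) (hc : c t0 ≠ 0) (hper : ∀ (σ : G) (t : T), 0 < period σ t)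
    (hact : ∀ w : ι → ZMod r, ∃ h : G, Act r b z t0 h w)
    [Finite (G ⧸ Nn (T := T) G r b)] :
    ((QuotientGroup.mk : G → G ⧸ Nn (T := T) G r b) '' {σ | Bad r b c σ}).ncard *
      r ^ Fintype.card ι ≤ Nat.card (G ⧸ Nn (T := T) G r b) := by
  classical
  have : NeZero r := ⟨hr.ne_zero⟩
  have hzr : z ^ r = 1 := hz.pow_eq_one
  have hN : (Nn (T := T) G r b).Normal := Nn_normal (T := T) (r := r) hb
  choose g hg using hact
  set S := (QuotientGroup.mk : G → G ⧸ Nn (T := T) G r b) '' {σ | Bad r b c σ} with hS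
  have hcard : S.ncard * r ^ Fintype.card ι = Nat.card (S × (ι → ZMod r)) := by
    rw [Nat.card_prod, Nat.card_eq_fintype_card (α := ι → ZMod r), Fintype.card_fun, ZMod.card]
    rfl
  rw [hcard]
  refine Nat.card_le_card_of_injective
    (fun p : S × (ι → ZMod r) => (p.1 : G ⧸ Nn (T := T) G r b) * (QuotientGroup.mk (g p.2))) ?_
  rintro ⟨⟨q, hq⟩, u⟩ ⟨⟨q', hq'⟩, u'⟩ hE
  simp only at hE
  obtain ⟨σ, hσ, rfl⟩ := hq
  obtain ⟨σ', hσ', rfl⟩ := hq'
  have hσb : Bad r b c σ := hσ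
  have hσb' : Bad r b c σ' := hσ'
  -- `σ' = σ g_u g_{u'}⁻¹ n`
  have hE2 : (QuotientGroup.mk σ' : G ⧸ Nn (T := T) G r b) =
      QuotientGroup.mk (σ * (g u * (g u')⁻¹)) := by
    rw [QuotientGroup.mk_mul, QuotientGroup.mk_mul, QuotientGroup.mk_inv, ← mul_assoc]
    exact eq_mul_inv_of_mul_eq hE.symm
  have hmem := QuotientGroup.eq.1 hE2
  have hBad : Bad r b c (σ * (g u * (g u')⁻¹)) := by
    have h1 := hσb'.mul hb hmem
    rwa [mul_inv_cancel_left] at h1
  have hAct := (hg u).mul hzr hr.pos ((hg u').inv hzr hr.pos)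
  have hw := key hr hb hb0 hroot hz hlt hc hper hσb hAct hBad
  have huu : u = u' := by
    rw [← sub_eq_add_neg] at hw
    exact sub_eq_zero.1 hw
  subst huu
  have hqq : (QuotientGroup.mk σ : G ⧸ Nn (T := T) G r b) = QuotientGroup.mk σ' :=
    mul_right_cancel hE
  simp only [hqq]

/-- the number of classes -/
theorem count_all [Fintype ι] {r : ℕ} (hr : r.Prime) {b : ι → T → A}
    (hb : ∀ (g : G) a t, g • b a t = b a (g • t)) (hb0 : ∀ a t, b a t ≠ 0)
    (hroot : ∀ a t, ∃ y : A, y ^ r = b a t) {z : A} (hz : IsPrimitiveRoot z r)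
    (hper : ∀ (σ : G) (t : T), 0 < period σ t)
    (hact : ∀ (t0 : T) (w : ι → ZMod r), ∃ h : G, Act r b z t0 h w)
    [Finite (G ⧸ Nn (T := T) G r b)] :
    ((QuotientGroup.mk : G → G ⧸ Nn (T := T) G r b) '' BadAll r b).ncard *
      r ^ Fintype.card ι ≤ r ^ Fintype.card T * Nat.card (G ⧸ Nn (T := T) G r b) := by
  classical
  have : NeZero r := ⟨hr.ne_zero⟩
  set m : (T → Fin r) → Set (G ⧸ Nn (T := T) G r b) := fun c =>
    if ∃ t, (c t : ℕ) ≠ 0 then (QuotientGroup.mk : G → G ⧸ Nn (T := T) G r b) ''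
      {σ | Bad r b (fun t => (c t : ℕ)) σ} else ∅ with hm
  have hsub : (QuotientGroup.mk : G → G ⧸ Nn (T := T) G r b) '' BadAll r b ⊆ ⋃ c, m c := by
    rintro _ ⟨σ, ⟨c, h1, h2, h3⟩, rfl⟩
    rw [Set.mem_iUnion]
    refine ⟨fun t => ⟨c t, h1 t⟩, ?_⟩
    rw [hm]
    simp only
    rw [if_pos h2]
    exact ⟨σ, h3, rfl⟩
  have hle : ((QuotientGroup.mk : G → G ⧸ Nn (T := T) G r b) '' BadAll r b).ncard ≤
      ∑ c, (m c).ncard := by
    refine le_trans (Set.ncard_le_ncard hsub (Set.toFinite _)) ?_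
    have h1 : (⋃ c, m c) = ⋃ c ∈ (Finset.univ : Finset (T → Fin r)), m c := by simp
    rw [h1]
    exact Finset.set_ncard_biUnion_le _ _
  have hone : ∀ c, (m c).ncard * r ^ Fintype.card ι ≤ Nat.card (G ⧸ Nn (T := T) G r b) := by
    intro c
    rw [hm]
    simp only
    split_ifs with h1
    · obtain ⟨t0, ht0⟩ := h1
      exact count_one hr hb hb0 hroot hz (c := fun t => (c t : ℕ)) (t0 := t0) (c t0).isLt ht0 hper
        (hact t0)
    · rw [Set.ncard_empty, zero_mul]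
      exact Nat.zero_le _
  calc _ ≤ (∑ c, (m c).ncard) * r ^ Fintype.card ι := Nat.mul_le_mul_right _ hle
    _ = ∑ c, (m c).ncard * r ^ Fintype.card ι := Finset.sum_mul _ _ _
    _ ≤ ∑ _c : T → Fin r, Nat.card (G ⧸ Nn (T := T) G r b) :=
        Finset.sum_le_sum (fun c _ => hone c)
    _ = _ := by
        rw [Finset.sum_const, Finset.card_univ, Fintype.card_fun, Fintype.card_fin, smul_eq_mul]

end

end Pool.Agent.H218.TH.TCB2
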