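import Pool.Agent.H500.KumI
import Pool.Agent.H218.TH.TCB2a

set_option autoImplicit false
set_option linter.unusedSectionVars false

/-!
# Twisted Kummer theory, the analysis at one prime (helper218, for project TH of helper500)
-/

namespace Pool.Agent.H218.TH.TCB2

open NumberField IsDedekindDomain Filter Topology MulAction Polynomial
open Pool.Agent.W401.Cheb (GK IsFrob dens)
open Pool.Agent.W569.FM (OO GF)
open Pool.Agent.H500.Kum (exists_pow pow_unique exists_root exists_prim)

section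

/-- embeddings in the algebraic closure -/
def Emb (K E : Type) [Field K] [Field E] : Type := K →+* AlgebraicClosure E

variable {K E : Type} [Field K] [NumberField K] [Field E] [NumberField E]

noncomputable instance instActEmb : MulAction (GF E) (Emb K E) where
  smul g t := (RingHomClass.toRingHom g : AlgebraicClosure E →+* AlgebraicClosure E).comp
    (show K →+* AlgebraicClosure E from t)
  one_smul _ := rfl
  mul_smul _ _ _ := rfl

/-- on the rings of integers -/
noncomputable def tO (t : Emb K E) : 𝓞 K →+* OO E :=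
  RingOfIntegers.mapRingHom (show K →+* AlgebraicClosure E from t)

theorem smul_tO (g : GF E) (t : Emb K E) (w : 𝓞 K) : g • tO t w = tO (g • t) w := by
  apply RingOfIntegers.ext
  rfl

theorem card_le_of_pow {k : Type} [Field k] [Fintype k] {n : ℕ} (hn : 1 < n)
    (h : ∀ x : k, x ^ n = x) : Fintype.card k ≤ n := by
  classical
  have h1 : (X ^ n - X : k[X]).natDegree = n := FiniteField.X_pow_card_sub_X_natDegree_eq k hn
  have h0 : (X ^ n - X : k[X]) ≠ 0 := FiniteField.X_pow_card_sub_X_ne_zero k hn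
  have h2 : (Finset.univ : Finset k) ⊆ (X ^ n - X : k[X]).roots.toFinset := by
    intro x _
    rw [Multiset.mem_toFinset, Polynomial.mem_roots h0, Polynomial.IsRoot.def]
    simp [h x]
  calc Fintype.card k = (Finset.univ : Finset k).card := rfl
    _ ≤ (X ^ n - X : k[X]).roots.toFinset.card := Finset.card_le_card h2
    _ ≤ Multiset.card (X ^ n - X : k[X]).roots := Multiset.toFinset_card_le _
    _ ≤ (X ^ n - X : k[X]).natDegree := Polynomial.card_roots' _
    _ = n := h1

/-- iterates of a Frobenius element -/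
theorem iter {Q : Ideal (OO E)} {σ : GF E} {l : ℕ} (hσ : ∀ w : OO E, σ • w - w ^ l ∈ Q) (n : ℕ) :
    ∀ w : OO E, σ ^ n • w - w ^ l ^ n ∈ Q := by
  induction n with
  | zero =>
    intro w
    rw [pow_zero, one_smul, pow_zero, pow_one, sub_self]
    exact Q.zero_mem
  | succ n ih =>
    intro w
    have h1 := ih (σ • w)
    have h2 : (σ • w) ^ l ^ n - (w ^ l) ^ l ^ n ∈ Q :=
      Q.mem_of_dvd (sub_dvd_pow_sub_pow _ _ _) (hσ w)
    have h3 := Q.add_mem h1 h2
    rw [sub_add_sub_cancel, ← pow_mul, ← pow_succ'] at h3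
    rw [pow_succ, mul_smul]
    exact h3

/-- a prime ideal with norm `l ^ e` -/
theorem pow_sub_mem {I : Ideal (𝓞 K)} (hI : I.IsPrime) (h0 : Ideal.absNorm I ≠ 0) (w : 𝓞 K) :
    w ^ Ideal.absNorm I - w ∈ I := by
  classical
  have hne : I ≠ ⊥ := by
    intro h
    rw [h, Ideal.absNorm_bot] at h0
    exact h0 rfl
  have hmax : I.IsMaximal := hI.isMaximal hne
  let _ : Field (𝓞 K ⧸ I) := Ideal.Quotient.field I
  have : Finite (𝓞 K ⧸ I) := Ideal.finiteQuotientOfFreeOfNeBot I hne
  let _ : Fintype (𝓞 K ⧸ I) := Fintype.ofFinite _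
  rw [← Ideal.Quotient.mk_eq_mk_iff_sub_mem, map_pow]
  have h2 : Ideal.absNorm I = Fintype.card (𝓞 K ⧸ I) := by
    rw [Ideal.absNorm_apply, Submodule.cardQuot_apply, Nat.card_eq_fintype_card]
  rw [h2]
  exact FiniteField.pow_card _

theorem norm_le {I : Ideal (𝓞 K)} (hI : I.IsPrime) (h0 : Ideal.absNorm I ≠ 0) {n : ℕ}
    (hn : 1 < n) (h : ∀ w : 𝓞 K, w ^ n - w ∈ I) : Ideal.absNorm I ≤ n := by
  classical
  have hne : I ≠ ⊥ := by
    intro h
    rw [h, Ideal.absNorm_bot] at h0
    exact h0 rfl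
  have hmax : I.IsMaximal := hI.isMaximal hne
  let _ : Field (𝓞 K ⧸ I) := Ideal.Quotient.field I
  have : Finite (𝓞 K ⧸ I) := Ideal.finiteQuotientOfFreeOfNeBot I hne
  let _ : Fintype (𝓞 K ⧸ I) := Fintype.ofFinite _
  have h2 : Ideal.absNorm I = Fintype.card (𝓞 K ⧸ I) := by
    rw [Ideal.absNorm_apply, Submodule.cardQuot_apply, Nat.card_eq_fintype_card]
  rw [h2]
  apply card_le_of_pow hn
  intro x
  obtain ⟨w, rfl⟩ := Ideal.Quotient.mk_surjective x
  rw [← map_pow, Ideal.Quotient.mk_eq_mk_iff_sub_mem]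
  exact h w

theorem period_pos [Finite (Emb K E)] (σ : GF E) (t : Emb K E) : 0 < period σ t := by
  apply Function.minimalPeriod_pos_of_mem_periodicPts
  exact (MulAction.injective σ).mem_periodicPts t

variable {s : ℕ}

/-- **The analysis at one prime.** -/
theorem at_prime [Fintype (Emb K E)] {r : ℕ} (hr : r.Prime) (x : Fin s → 𝓞 K) {l : ℕ}
    (hl : l.Prime) {Q : Ideal (OO E)} (hQ : Q.IsPrime) (hrQ : (r : OO E) ∉ Q)
    (hsep : ∀ t1 t2 : Emb K E, t1 ≠ t2 → ∃ w : 𝓞 K, tO t1 w - tO t2 w ∉ Q)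
    (hx : ∀ a (t : Emb K E), tO t (x a) ∉ Q) {σ : GF E} (hσ : ∀ w : OO E, σ • w - w ^ l ∈ Q)
    (c e : Emb K E → ℕ) (hlt : ∀ t, c t < r) (hne : ∃ t, c t ≠ 0)
    (hdeg : ∀ t, Ideal.absNorm (Q.comap (tO t)) = l ^ e t)
    (hdvd : ∀ t, c t ≠ 0 → r ∣ l ^ e t - 1)
    (hinj : ∀ t t', c t ≠ 0 → c t' ≠ 0 → Q.comap (tO t) = Q.comap (tO t') → t = t')
    (hprod : ∀ a, ∏ t, tO t (x a) ^ (c t * ((l ^ e t - 1) / r)) - 1 ∈ Q) :
    σ ∈ BadAll r (fun a (t : Emb K E) => tO t (x a)) := by
  classical
  have hNr : NeZero r := ⟨hr.ne_zero⟩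
  have hit := iter hσ
  have hIp : ∀ t : Emb K E, (Q.comap (tO t)).IsPrime := fun t => Ideal.comap_isPrime (tO t) Q
  have hI0 : ∀ t : Emb K E, Ideal.absNorm (Q.comap (tO t)) ≠ 0 := by
    intro t
    rw [hdeg]
    exact pow_ne_zero _ hl.ne_zero
  have hfix : ∀ t : Emb K E, σ ^ e t • t = t := by
    intro t
    by_contra hcon
    obtain ⟨w, hw⟩ := hsep _ _ hcon
    apply hw
    rw [← smul_tO]
    have h1 := hit (e t) (tO t w)
    have h2 : tO t (w ^ l ^ e t - w) ∈ Q := by
      have h3 := pow_sub_mem (hIp t) (hI0 t) w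
      rw [hdeg] at h3
      exact h3
    rw [map_sub, map_pow] at h2
    have h4 := Q.add_mem h1 h2
    rwa [sub_add_sub_cancel] at h4
  have hper : ∀ t : Emb K E, period σ t = e t := by
    intro t
    have hpos := period_pos σ t
    have hdv : period σ t ∣ e t := pow_smul_eq_iff_period_dvd.1 (hfix t)
    have hle : e t ≤ period σ t := by
      have h1 : ∀ w : 𝓞 K, w ^ l ^ period σ t - w ∈ Q.comap (tO t) := by
        intro w
        rw [Ideal.mem_comap, map_sub, map_pow]
        have h2 := hit (period σ t) (tO t w)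
        rw [smul_tO, pow_period_smul] at h2
        have h3 := Q.neg_mem h2
        rwa [neg_sub] at h3
      have h4 := norm_le (hIp t) (hI0 t) (Nat.one_lt_pow hpos.ne' hl.one_lt) h1
      rw [hdeg] at h4
      exact (Nat.pow_le_pow_iff_right hl.one_lt).1 h4
    rcases Nat.eq_zero_or_pos (e t) with h0 | h0
    · exfalso
      -- then the ideal is the unit ideal
      have h1 := hdeg t
      rw [h0, pow_zero, Ideal.absNorm_eq_one_iff] at h1
      exact (hIp t).ne_top h1
    · exact le_antisymm (Nat.le_of_dvd h0 hdv) hle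
  refine ⟨c, hlt, hne, ?_, ?_, ?_⟩
  · intro t ht ζ hζ
    rw [hper]
    obtain ⟨m, hm⟩ := hdvd t ht
    have h1 : 1 ≤ l ^ e t := Nat.one_le_pow _ _ hl.pos
    have h2 : ζ ^ l ^ e t = ζ := by
      have : l ^ e t = r * m + 1 := by omega
      rw [this, pow_add, pow_mul, hζ, one_pow, one_mul, pow_one]
    have h3 := hit (e t) ζ
    rw [h2] at h3
    refine Pool.Agent.Y115.Chi.root_eq (P := Q) (l := r) hrQ ?_ hζ h3 hr.ne_zero
    rw [← smul_pow', hζ, smul_one]
  · intro t ht i hi1 hi2
    by_contra hcon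
    have hI : Q.comap (tO (σ ^ i • t)) = Q.comap (tO t) := by
      ext w
      rw [Ideal.mem_comap, Ideal.mem_comap, ← smul_tO]
      have h1 := hit i (tO t w)
      constructor
      · intro h2
        have h3 := Q.sub_mem h2 h1
        rw [sub_sub_cancel] at h3
        exact hQ.mem_of_pow_mem _ h3
      · intro h2
        have h3 : (tO t w) ^ l ^ i ∈ Q :=
          Ideal.pow_mem_of_mem Q h2 _ (Nat.pow_pos hl.pos)
        have h4 := Q.add_mem h1 h3
        rwa [sub_add_cancel] at h4
    have h5 := hinj _ _ hcon ht hI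
    exact pow_smul_ne_of_lt_period hi1 hi2 h5
  · intro a y hy
    simp only at hy
    set u := ∏ t, (σ ^ period σ t • y t) ^ c t with hu
    set v := ∏ t, y t ^ c t with hv
    have hyQ : ∀ t, y t ∉ Q := by
      intro t h
      apply hx a t
      rw [← hy t]
      exact Ideal.pow_mem_of_mem Q h r hr.pos
    have hvQ : v ∉ Q := by
      intro h
      rw [hv] at h
      obtain ⟨t, _, ht⟩ := (hQ.prod_mem_iff).1 h
      exact hyQ t (hQ.mem_of_pow_mem _ ht)
    have hv0 : v ≠ 0 := fun h => hvQ (h ▸ Q.zero_mem)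
    have huv : u ^ r = v ^ r := by
      rw [hu, hv, ← Finset.prod_pow, ← Finset.prod_pow]
      apply Finset.prod_congr rfl
      intro t _
      rw [← pow_mul, mul_comm, pow_mul, ← smul_pow', hy, smul_tO, pow_period_smul, ← hy, ← pow_mul,
        ← pow_mul, mul_comm]
    -- congruences
    have hcong : u - v ∈ Q := by
      rw [← Ideal.Quotient.mk_eq_mk_iff_sub_mem, hu, hv, map_prod, map_prod]
      have h1 : ∀ t, Ideal.Quotient.mk Q ((σ ^ period σ t • y t) ^ c t) =
          Ideal.Quotient.mk Q (tO t (x a) ^ (c t * ((l ^ e t - 1) / r))) *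
            Ideal.Quotient.mk Q (y t ^ c t) := by
        intro t
        by_cases ht : c t = 0
        · rw [ht, pow_zero, zero_mul, pow_zero, pow_zero, map_one, one_mul]
        · obtain ⟨m, hm⟩ := hdvd t ht
          have h2 : 1 ≤ l ^ e t := Nat.one_le_pow _ _ hl.pos
          have h3 : l ^ e t = r * m + 1 := by omega
          have h4 : (l ^ e t - 1) / r = m := by
            rw [hm, Nat.mul_div_cancel_left _ hr.pos]
          rw [h4, hper, map_pow]
          have h5 := (Ideal.Quotient.mk_eq_mk_iff_sub_mem _ _).2 (hit (e t) (y t))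
          rw [h5, ← map_pow, ← map_mul]
          congr 1
          rw [h3, pow_add, pow_mul, hy, pow_one, mul_pow, ← pow_mul, mul_comm m]
      rw [Finset.prod_congr rfl (fun t _ => h1 t), Finset.prod_mul_distrib, ← map_prod]
      have h6 := (Ideal.Quotient.mk_eq_mk_iff_sub_mem _ _).2 (hprod a)
      rw [h6, map_one, one_mul]
    obtain ⟨z, hz⟩ := exists_prim (E := E) r
    have hrf : Fact r.Prime := ⟨hr⟩
    obtain ⟨k, hk⟩ := exists_pow hz (x := u) (y := v) hv0 huv
    have h7 : (z ^ k.val - 1) * v ∈ Q := by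
      rw [sub_mul, one_mul, ← hk]
      exact hcong
    have h8 := (hQ.mem_or_mem h7).resolve_right hvQ
    have h9 : z ^ k.val = 1 := by
      refine Pool.Agent.Y115.Chi.root_eq (P := Q) (l := r) hrQ ?_ (one_pow _) h8 hr.ne_zero
      rw [← pow_mul, mul_comm, pow_mul, hz.pow_eq_one, one_pow]
    rw [hk, h9, one_mul]

end

end Pool.Agent.H218.TH.TCB2
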