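import Pool.Agent.H500.TH.Stm
import Pool.Agent.H215.HC.DensF
import Pool.Agent.H218.TH.TCB2b

set_option autoImplicit false
set_option linter.unusedSectionVars false

/-!
# TH-D4: twisted Kummer theory for one prime (helper218, for project TH of helper500)
-/

namespace Pool.Agent.H218.TH.TCB2

open NumberField IsDedekindDomain Filter Topology MulAction
open Pool.Agent.W401.Cheb (GK IsFrob dens)
open Pool.Agent.W569.FM (OO GF)
open Pool.Agent.H500.Kum (exists_pow pow_unique exists_root exists_prim fin_mem dens_fin)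
open Pool.Agent.H500.KumI (KJ exists_KJ)
open Pool.Agent.H500.HC (em)
open Pool.Agent.H500.TH (Pat S_TCB2)

section

variable {K E F : Type} [Field K] [NumberField K] [Field E] [NumberField E] [Field F]
  [NumberField F]

theorem charZ : CharZero (AlgebraicClosure E) :=
  charZero_of_injective_algebraMap (algebraMap E (AlgebraicClosure E)).injective

noncomputable instance instFintypeEmb : Fintype (Emb K E) :=
  have : CharZero (AlgebraicClosure E) := charZ
  inferInstanceAs (Fintype (K →+* AlgebraicClosure E))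

theorem emb_ext {t1 t2 : Emb K E} (h : ∀ w : 𝓞 K, tO t1 w = tO t2 w) : t1 = t2 := by
  have h1 : (show K →+* AlgebraicClosure E from t1) = (show K →+* AlgebraicClosure E from t2) := by
    apply IsLocalization.ringHom_ext (nonZeroDivisors (𝓞 K))
    apply RingHom.ext
    intro w
    exact congrArg (fun v : OO E => (v : AlgebraicClosure E)) (h w)
  exact h1

theorem exists_sep : ∃ W : Emb K E → Emb K E → 𝓞 K, ∀ t1 t2, t1 ≠ t2 →
    tO t1 (W t1 t2) ≠ tO t2 (W t1 t2) := by
  classical
  have h : ∀ t1 t2 : Emb K E, ∃ w : 𝓞 K, t1 ≠ t2 → tO t1 w ≠ tO t2 w := by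
    intro t1 t2
    by_cases ht : t1 = t2
    · exact ⟨0, fun h => absurd ht h⟩
    · by_contra hcon
      push Not at hcon
      apply ht
      apply emb_ext
      intro w
      exact (hcon w).2
  choose W hW using h
  exact ⟨W, hW⟩

variable {s : ℕ}

theorem isOpen_Nn {r : ℕ} [hr : Fact r.Prime] (x : Fin s → 𝓞 K) (hx : ∀ a, x a ≠ 0) :
    IsOpen ((Nn (T := Emb K E) (GF E) r (fun a (t : Emb K E) => tO t (x a)) :
      Subgroup (GF E)) : Set (GF E)) := by
  classical
  have : NeZero r := ⟨hr.out.ne_zero⟩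
  obtain ⟨z, hz⟩ := exists_prim (E := E) r
  obtain ⟨W, hW⟩ := exists_sep (K := K) (E := E)
  choose y hy using fun (a : Fin s) (t : Emb K E) => exists_root hr.out.pos (tO t (x a))
  have hst : ∀ w : OO E, IsOpen (MulAction.stabilizer (GF E) (w : AlgebraicClosure E) :
      Set (GF E)) := fun w => stabilizer_isOpen_of_isIntegral (K := E) (w : AlgebraicClosure E)
  have hopen : IsOpen ((MulAction.stabilizer (GF E) (z : AlgebraicClosure E) : Set (GF E)) ∩
      ((⋂ a, ⋂ t, (MulAction.stabilizer (GF E) (y a t : AlgebraicClosure E) : Set (GF E))) ∩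
      ⋂ t1, ⋂ t2, (MulAction.stabilizer (GF E) (tO t1 (W t2 t1) : AlgebraicClosure E) :
        Set (GF E)))) :=
    (hst z).inter ((isOpen_iInter_of_finite fun a => isOpen_iInter_of_finite fun t =>
      hst (y a t)).inter (isOpen_iInter_of_finite fun t1 => isOpen_iInter_of_finite fun t2 =>
      hst (tO t1 (W t2 t1))))
  refine Subgroup.isOpen_of_mem_nhds _ (g := 1) (Filter.mem_of_superset
    (hopen.mem_nhds ?_) ?_)
  · refine ⟨one_smul _ _, Set.mem_iInter.2 fun a => Set.mem_iInter.2 fun t => one_smul _ _,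
      Set.mem_iInter.2 fun t1 => Set.mem_iInter.2 fun t2 => one_smul _ _⟩
  · rintro g ⟨h1, h2, h3⟩
    rw [Set.mem_iInter] at h2 h3
    have hz1 : g • z = z := RingOfIntegers.ext h1
    have hone : ∀ ζ : OO E, ζ ^ r = 1 → g • ζ = ζ := by
      intro ζ hζ
      obtain ⟨k, hk⟩ := exists_pow hz (x := ζ) (y := 1) one_ne_zero (by rw [hζ, one_pow])
      rw [hk, mul_one, smul_pow', hz1]
    refine ⟨?_, hone, ?_⟩
    · intro t
      by_contra hcon
      apply hW _ _ hcon
      rw [← smul_tO]
      have h4 := h3 t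
      rw [Set.mem_iInter] at h4
      exact RingOfIntegers.ext (h4 (g • t))
    · intro a t w hw
      have h4 := h2 a
      rw [Set.mem_iInter] at h4
      have hy1 : g • y a t = y a t := RingOfIntegers.ext (h4 t)
      have hb0 : tO t (x a) ≠ 0 := by
        intro h0
        apply hx a
        have h5 : (show K →+* AlgebraicClosure E from t) (x a : K) = 0 :=
          congrArg (fun v : OO E => (v : AlgebraicClosure E)) h0
        rw [map_eq_zero] at h5
        exact RingOfIntegers.ext h5
      have hy0 : y a t ≠ 0 := by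
        intro h0
        apply hb0
        rw [← hy a t, h0, zero_pow hr.out.ne_zero]
      have hw' : w ^ r = tO t (x a) := hw
      obtain ⟨k, hk⟩ := exists_pow hz (x := w) (y := y a t) hy0 (by rw [hw', hy])
      rw [hk, smul_mul', smul_pow', hz1, hy1]

/-- nonzero elements are in few primes -/
theorem fin_above {δ : OO E} (h : δ ≠ 0) :
    {v : HeightOneSpectrum (𝓞 E) | ∃ Q : Ideal (OO E),
      Q.comap (algebraMap (𝓞 E) (OO E)) = v.asIdeal ∧ δ ∈ Q}.Finite := by
  have hint : IsIntegral (𝓞 E) δ := by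
    have h1 : IsIntegral ℤ δ := Algebra.IsIntegral.isIntegral δ
    exact h1.tower_top
  have hne := Ideal.comap_ne_bot_of_integral_mem h (Ideal.mem_span_singleton_self δ) hint
  obtain ⟨d, hd, hd0⟩ := Submodule.exists_mem_ne_zero_of_ne_bot hne
  refine (fin_mem hd0).subset ?_
  rintro v ⟨Q, hQv, hδ⟩
  show d ∈ v.asIdeal
  rw [← hQv, Ideal.mem_comap]
  have h2 : Ideal.span {δ} ≤ Q := by
    rw [Ideal.span_singleton_le_iff_mem]
    exact hδ
  exact h2 hd

/-- a Frobenius element at a given maximal ideal -/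
theorem frob_at (v : HeightOneSpectrum (𝓞 E)) {Q : Ideal (OO E)} (hQm : Q.IsMaximal)
    (hQv : Q.comap (algebraMap (𝓞 E) (OO E)) = v.asIdeal) :
    ∃ σ : GF E, ∀ w : OO E, σ • w - w ^ Ideal.absNorm v.asIdeal ∈ Q := by
  classical
  have : SMulCommClass (GK E) (𝓞 E) (𝓞 (AlgebraicClosure E)) := Pool.Agent.W401.Frob.smulComm
  have : Algebra.IsInvariant (𝓞 E) (𝓞 (AlgebraicClosure E)) (GK E) := Pool.Agent.W401.Frob.isInv
  let _ : TopologicalSpace (𝓞 (AlgebraicClosure E)) := ⊥
  have : DiscreteTopology (𝓞 (AlgebraicClosure E)) := ⟨rfl⟩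
  have : ContinuousSMul (GK E) (𝓞 (AlgebraicClosure E)) := by
    rw [continuousSMul_iff_stabilizer_isOpen]
    intro x
    have h1 := stabilizer_isOpen_of_isIntegral (K := E) (x : AlgebraicClosure E)
    have h2 : (MulAction.stabilizer (GK E) x : Set (GK E)) =
        (MulAction.stabilizer (GK E) (x : AlgebraicClosure E) : Set (GK E)) := by
      ext g
      constructor
      · intro h
        exact congrArg (fun z : (𝓞 (AlgebraicClosure E)) => (z : AlgebraicClosure E)) h
      · intro h
        exact RingOfIntegers.ext h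
    rw [h2]
    exact h1
  obtain ⟨σ, Q', hQm', hQv', hF⟩ := Pool.Agent.W401.Frob.exists_frob v
  have := hQm.isPrime
  have := hQm'.isPrime
  obtain ⟨ρ, hρ⟩ := Algebra.IsInvariant.exists_smul_of_under_eq_of_profinite (A := 𝓞 E)
    (G := GK E) Q' Q (hQv'.trans hQv.symm)
  have hρ' : Q = Pool.Agent.W401.Frob.tr ρ Q' := by
    rw [hρ]
    ext x
    rw [Pool.Agent.W401.Frob.mem_tr]
    exact Ideal.mem_pointwise_smul_iff_inv_smul_mem
  refine ⟨ρ * σ * ρ⁻¹, fun w => ?_⟩
  rw [hρ']
  exact Pool.Agent.W401.Frob.frob_conj v σ ρ Q' hF w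

/-- an isomorphism of the algebraic closures over an embedding -/
theorem exists_phi (i : E →+* F) (j0 : F →+* AlgebraicClosure E)
    (hj : j0.comp i = algebraMap E (AlgebraicClosure E)) :
    ∃ φ : AlgebraicClosure F ≃+* AlgebraicClosure E,
      ∀ w : F, φ (algebraMap F (AlgebraicClosure F) w) = j0 w := by
  let _ : Algebra E F := i.toAlgebra
  let _ : Algebra F (AlgebraicClosure E) := j0.toAlgebra
  have : IsScalarTower E F (AlgebraicClosure E) := IsScalarTower.of_algebraMap_eq' hj.symm
  have : Algebra.IsAlgebraic F (AlgebraicClosure E) :=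
    Algebra.IsAlgebraic.tower_top (K := E) F
  have : IsAlgClosure F (AlgebraicClosure E) := ⟨inferInstance, inferInstance⟩
  let φ := IsAlgClosure.equiv F (AlgebraicClosure F) (AlgebraicClosure E)
  exact ⟨φ.toRingEquiv, fun w => φ.commutes w⟩

theorem exists_j0 (i : E →+* F) : ∃ j0 : F →+* AlgebraicClosure E,
    j0.comp i = algebraMap E (AlgebraicClosure E) := by
  let _ : Algebra E F := i.toAlgebra
  have h1 : Algebra.IsAlgebraic E F := by
    have : CharZero E := inferInstance
    have h2 : Module.Finite ℚ F := inferInstance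
    have : IsScalarTower ℚ E F := inferInstance
    have : Module.Finite E F := Module.Finite.of_restrictScalars_finite ℚ E F
    exact Algebra.IsAlgebraic.of_finite E F
  let j : F →ₐ[E] AlgebraicClosure E := IsAlgClosed.lift
  exact ⟨j.toRingHom, j.comp_algebraMap⟩

/-- transport of an automorphism -/
theorem transport (i : E →+* F) (j0 : F →+* AlgebraicClosure E)
    (hj : j0.comp i = algebraMap E (AlgebraicClosure E))
    (φ : AlgebraicClosure F ≃+* AlgebraicClosure E)
    (hφ : ∀ w : F, φ (algebraMap F (AlgebraicClosure F) w) = j0 w) (g : GF F) :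
    ∃ h : GF E, (∀ w : AlgebraicClosure F, h (φ w) = φ (g w)) ∧ ∀ w : F, h (j0 w) = j0 w := by
  have hj' : ∀ e : E, algebraMap E (AlgebraicClosure E) e = j0 (i e) := by
    intro e
    rw [← hj]
    rfl
  let f : AlgebraicClosure E ≃+* AlgebraicClosure E := φ.symm.trans (g.toRingEquiv.trans φ)
  have hf : ∀ w : AlgebraicClosure F, f (φ w) = φ (g w) := by
    intro w
    show φ (g (φ.symm (φ w))) = φ (g w)
    rw [RingEquiv.symm_apply_apply]
  have hf2 : ∀ w : F, f (j0 w) = j0 w := by
    intro w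
    rw [← hφ w, hf]
    congr 1
    exact g.commutes w
  have hcomm : ∀ e : E, f (algebraMap E (AlgebraicClosure E) e) =
      algebraMap E (AlgebraicClosure E) e := by
    intro e
    rw [hj', hf2]
  exact ⟨AlgEquiv.ofRingEquiv (f := f) hcomm, hf, hf2⟩

/-- the embeddings factor through `F` -/
noncomputable def beta (j0 : F →+* AlgebraicClosure E) (t : K →+* F) : Emb K E := j0.comp t

theorem beta_bij (j0 : F →+* AlgebraicClosure E)
    (hcard : Fintype.card (K →+* F) = Module.finrank ℚ K) :
    Function.Bijective (beta (K := K) j0) := by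
  rw [Fintype.bijective_iff_injective_and_card]
  constructor
  · intro t t' h
    apply RingHom.ext
    intro w
    apply j0.injective
    have h1 : (j0.comp t : K →+* AlgebraicClosure E) = j0.comp t' := h
    exact RingHom.congr_fun h1 w
  · rw [hcard]
    have : CharZero (AlgebraicClosure E) := charZ
    exact (NumberField.Embeddings.card K (AlgebraicClosure E)).symm

theorem tO_beta (j0 : F →+* AlgebraicClosure E) (t : K →+* F) (w : 𝓞 K) :
    tO (beta j0 t) w = RingOfIntegers.mapRingHom j0 (em t w) := by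
  apply RingOfIntegers.ext
  rfl

/-- existence of elements acting on the roots in a prescribed way -/
theorem exists_act (i : E →+* F) (j0 : F →+* AlgebraicClosure E)
    (hj : j0.comp i = algebraMap E (AlgebraicClosure E))
    (hcard : Fintype.card (K →+* F) = Module.finrank ℚ K) {r : ℕ} [hr : Fact r.Prime]
    (x : Fin s → 𝓞 K) (hx : ∀ a, x a ≠ 0)
    (hind : ∀ n : Fin s → (K →+* F) → ZMod r,
      (∃ ε : 𝓞 F, ε ^ r = ∏ a, ∏ t, em t (x a) ^ (n a t).val) → n = 0) :
    ∃ z : OO E, IsPrimitiveRoot z r ∧ ∀ (t0 : Emb K E) (w : Fin s → ZMod r),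
      ∃ h : GF E, Act r (fun a (t : Emb K E) => tO t (x a)) z t0 h w := by
  classical
  obtain ⟨φ, hφ⟩ := exists_phi i j0 hj
  have hem : ∀ p : Fin s × (K →+* F), em p.2 (x p.1) ≠ 0 := by
    intro p h0
    apply hx p.1
    have h5 : p.2 (x p.1 : K) = 0 := congrArg (fun v : 𝓞 F => (v : F)) h0
    rw [map_eq_zero] at h5
    exact RingOfIntegers.ext h5
  obtain ⟨D, hD⟩ := exists_KJ (E := F) (r := r) (fun p : Fin s × (K →+* F) => em p.2 (x p.1)) hem
  set φO : OO F →+* OO E := RingOfIntegers.mapRingHom (φ : AlgebraicClosure F →+* AlgebraicClosure E)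
    with hφO
  have hinj : Function.Injective φO := by
    intro u v huv
    apply RingOfIntegers.ext
    apply φ.injective
    exact congrArg (fun v : OO E => (v : AlgebraicClosure E)) huv
  have hz : IsPrimitiveRoot (φO D.z) r := D.hz.map_of_injective hinj
  refine ⟨φO D.z, hz, ?_⟩
  intro t0 w
  have hbij := beta_bij (E := E) (K := K) j0 hcard
  set k : Fin s × (K →+* F) → ZMod r := fun p => if beta j0 p.2 = t0 then w p.1 else 0 with hk
  obtain ⟨g, hg1, hg2⟩ := Pool.Agent.H215.HC.DensF.kap_surj D (by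
    intro n hn
    rw [hD] at hn
    have h1 := hind (fun a t => n (a, t)) (by
      obtain ⟨ε, hε⟩ := hn
      refine ⟨ε, ?_⟩
      rw [hε, Fintype.prod_prod_type])
    funext p
    exact congrFun (congrFun h1 p.1) p.2) k
  obtain ⟨h, hh1, hh2⟩ := transport i j0 hj φ hφ g
  have hhO : ∀ v : OO F, h • φO v = φO (g • v) := by
    intro v
    apply RingOfIntegers.ext
    exact hh1 v
  have hNr : NeZero r := ⟨hr.out.ne_zero⟩
  have hfz : h • φO D.z = φO D.z := by
    rw [hhO, D.smul_z, hg1]
    rw [ZMod.val_one, pow_one]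
  have hone : ∀ ζ : OO E, ζ ^ r = 1 → h • ζ = ζ := by
    intro ζ hζ
    obtain ⟨m, hm⟩ := exists_pow hz (x := ζ) (y := 1) one_ne_zero (by rw [hζ, one_pow])
    rw [hm, mul_one, smul_pow', hfz]
  have hkey : ∀ (a : Fin s) (t : K →+* F) (v : OO E), v ^ r = tO (beta j0 t) (x a) →
      h • v = (φO D.z) ^ (k (a, t)).val * v := by
    intro a t v hv
    have h2 : (φO (D.y (a, t))) ^ r = tO (beta j0 t) (x a) := by
      rw [← map_pow, D.hy, hD, tO_beta]
      apply RingOfIntegers.ext
      exact hφ _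
    have hy0 : φO (D.y (a, t)) ≠ 0 := by
      intro h0
      exact D.y_ne (a, t) (hinj (h0.trans (map_zero φO).symm))
    obtain ⟨m, hm⟩ := exists_pow hz (x := v) (y := φO (D.y (a, t))) hy0 (by rw [hv, h2])
    have h3 : h • φO (D.y (a, t)) = (φO D.z) ^ (k (a, t)).val * φO (D.y (a, t)) := by
      rw [hhO, D.smul_y, hg2, map_mul, map_pow]
    rw [hm, smul_mul', smul_pow', hfz, h3]
    ring
  refine ⟨h, ?_, hone, ?_, ?_⟩
  · intro t
    obtain ⟨t', rfl⟩ := hbij.2 t
    have h4 : (RingHomClass.toRingHom h : AlgebraicClosure E →+* AlgebraicClosure E).comp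
        (j0.comp t') = j0.comp t' := by
      apply RingHom.ext
      intro v
      exact hh2 (t' v)
    exact h4
  · intro a t v ht hv
    obtain ⟨t', rfl⟩ := hbij.2 t
    rw [hkey a t' v hv, hk]
    simp only
    rw [if_neg ht, ZMod.val_zero, pow_zero, one_mul]
  · intro a v hv
    obtain ⟨t', rfl⟩ := hbij.2 t0
    rw [hkey a t' v hv, hk]
    simp only [if_true]

theorem main : S_TCB2 := by
  intro K E F _ _ _ _ _ _ i hcard r hr
  classical
  have hrf : Fact r.Prime := ⟨hr⟩
  refine ⟨(r : ℝ) ^ (Fintype.card (Emb K E)) + 1, ?_⟩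
  intro s x hx hind P hP
  obtain ⟨j0, hj⟩ := exists_j0 i
  obtain ⟨z, hz, hact⟩ := exists_act i j0 hj hcard x hx hind
  obtain ⟨W, hW⟩ := exists_sep (K := K) (E := E)
  have hbij := beta_bij (E := E) (K := K) j0 hcard
  set b : Fin s → Emb K E → OO E := fun a t => tO t (x a) with hb
  have hbeq : ∀ (g : GF E) a t, g • b a t = b a (g • t) := fun g a t => smul_tO g t (x a)
  have hb0 : ∀ a t, b a t ≠ 0 := by
    intro a t h0
    apply hx a
    have h5 : (show K →+* AlgebraicClosure E from t) (x a : K) = 0 :=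
      congrArg (fun v : OO E => (v : AlgebraicClosure E)) h0
    rw [map_eq_zero] at h5
    exact RingOfIntegers.ext h5
  have hNopen := isOpen_Nn (K := K) (E := E) (r := r) x hx
  rw [← hb] at hNopen
  have hNn : (Nn (T := Emb K E) (GF E) r b).Normal := Nn_normal (T := Emb K E) (r := r) hbeq
  have hfin : Finite (GF E ⧸ Nn (T := Emb K E) (GF E) r b) :=
    Subgroup.quotient_finite_of_isOpen _ hNopen
  have hlim := Pool.Agent.W528.Ord.chebK E (Nn (T := Emb K E) (GF E) r b) hNopen (BadAll r b)
    (fun σ hσ τ => BadAll.conj hbeq hσ τ) (fun σ hσ u hu => BadAll.mul hbeq hσ hu)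
  have hcount := count_all (G := GF E) (A := OO E) (T := Emb K E) hr hbeq hb0
    (fun a t => exists_root hr.pos _) hz (fun σ t => period_pos σ t) hact
  rw [Fintype.card_fin] at hcount
  -- the exceptional places
  set X : HeightOneSpectrum (𝓞 E) → Prop := fun v => ((r : ℕ) : 𝓞 E) ∈ v.asIdeal ∨
    (∃ t1 t2 : Emb K E, t1 ≠ t2 ∧ ∃ Q : Ideal (OO E),
      Q.comap (algebraMap (𝓞 E) (OO E)) = v.asIdeal ∧
      tO t1 (W t1 t2) - tO t2 (W t1 t2) ∈ Q) ∨
    ∃ a, ∃ t : Emb K E, ∃ Q : Ideal (OO E),
      Q.comap (algebraMap (𝓞 E) (OO E)) = v.asIdeal ∧ b a t ∈ Q with hX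
  have hXfin : {v | X v}.Finite := by
    have h2 : ∀ t1 t2 : Emb K E, {v : HeightOneSpectrum (𝓞 E) | t1 ≠ t2 ∧ ∃ Q : Ideal (OO E),
      Q.comap (algebraMap (𝓞 E) (OO E)) = v.asIdeal ∧
      tO t1 (W t1 t2) - tO t2 (W t1 t2) ∈ Q}.Finite := by
      intro t1 t2
      by_cases h : t1 = t2
      · have : {v : HeightOneSpectrum (𝓞 E) | t1 ≠ t2 ∧ ∃ Q : Ideal (OO E),
          Q.comap (algebraMap (𝓞 E) (OO E)) = v.asIdeal ∧
          tO t1 (W t1 t2) - tO t2 (W t1 t2) ∈ Q} = ∅ := by
          ext v
          simp [h]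
        rw [this]
        exact Set.finite_empty
      · exact (fin_above (sub_ne_zero.2 (hW t1 t2 h))).subset fun v hv => hv.2
    have h3 : {v | X v} = {v : HeightOneSpectrum (𝓞 E) | ((r : ℕ) : 𝓞 E) ∈ v.asIdeal} ∪
        ((⋃ t1, ⋃ t2, {v : HeightOneSpectrum (𝓞 E) | t1 ≠ t2 ∧ ∃ Q : Ideal (OO E),
      Q.comap (algebraMap (𝓞 E) (OO E)) = v.asIdeal ∧
      tO t1 (W t1 t2) - tO t2 (W t1 t2) ∈ Q}) ∪ ⋃ a, ⋃ t,
        {v : HeightOneSpectrum (𝓞 E) | ∃ Q : Ideal (OO E),
      Q.comap (algebraMap (𝓞 E) (OO E)) = v.asIdeal ∧ b a t ∈ Q}) := by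
      ext v
      simp only [hX, Set.mem_union, Set.mem_iUnion, Set.mem_ofPred_eq]
    rw [h3]
    exact (fin_mem (Nat.cast_ne_zero.2 hr.ne_zero)).union
      ((Set.finite_iUnion fun t1 => Set.finite_iUnion fun t2 => h2 t1 t2).union
        (Set.finite_iUnion fun a => Set.finite_iUnion fun t => fin_above (hb0 a t)))
  have hXd := dens_fin X hXfin
  have hsub : ∀ v, P v → (∃ σ ∈ BadAll r b, IsFrob v σ) ∨ X v := by
    intro v hv
    by_cases hXv : X v
    · exact Or.inr hXv
    · left
      rw [hX] at hXv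
      push Not at hXv
      obtain ⟨hX1, hX2, hX3⟩ := hXv
      obtain ⟨hl, L, hL, c, e, hpat, hprod⟩ := hP v hv
      -- a maximal ideal above `L`
      obtain ⟨Q, hQm, hQL⟩ : ∃ Q : Ideal (OO E), Q.IsMaximal ∧
          Q.comap (RingOfIntegers.mapRingHom j0) = L.asIdeal := by
        let _ : Algebra (𝓞 F) (OO E) := (RingOfIntegers.mapRingHom j0).toAlgebra
        have : Algebra.IsIntegral (𝓞 F) (OO E) := by
          refine ⟨fun w => ?_⟩
          have h1 : IsIntegral ℤ w := Algebra.IsIntegral.isIntegral w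
          exact h1.tower_top
        have hLm : L.asIdeal.IsMaximal := L.isMaximal
        obtain ⟨Q, hQm, hQ⟩ := Ideal.exists_ideal_over_maximal_of_isIntegral (S := OO E)
          L.asIdeal (by
            have hinj : Function.Injective (algebraMap (𝓞 F) (OO E)) := by
              intro u v huv
              apply RingOfIntegers.ext
              apply j0.injective
              exact congrArg (fun v : OO E => (v : AlgebraicClosure E)) huv
            rw [(RingHom.injective_iff_ker_eq_bot _).1 hinj]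
            exact bot_le)
        exact ⟨Q, hQm, hQ⟩
      have hQp := hQm.isPrime
      have hQv : Q.comap (algebraMap (𝓞 E) (OO E)) = v.asIdeal := by
        rw [← hL, ← hQL, Ideal.comap_comap]
        congr 1
        apply RingHom.ext
        intro w
        apply RingOfIntegers.ext
        exact (RingHom.congr_fun hj (w : E)).symm
      obtain ⟨σ, hσ⟩ := frob_at v hQm hQv
      refine ⟨σ, ?_, Q, hQm, hQv, hσ⟩
      have hrQ : (r : OO E) ∉ Q := by
        intro h
        apply hX1
        rw [← hQv, Ideal.mem_comap, map_natCast]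
        exact h
      have hmemL : ∀ u : 𝓞 F, RingOfIntegers.mapRingHom j0 u ∈ Q ↔ u ∈ L.asIdeal := by
        intro u
        rw [← hQL, Ideal.mem_comap]
      have hcomap : ∀ t : K →+* F, Q.comap (tO (beta j0 t)) =
          L.asIdeal.comap (RingOfIntegers.mapRingHom t) := by
        intro t
        ext w
        rw [Ideal.mem_comap, Ideal.mem_comap, tO_beta, hmemL]
      set β : (K →+* F) ≃ Emb K E := Equiv.ofBijective (beta j0) hbij with hβ
      have hβa : ∀ t, β t = beta j0 t := fun t => rfl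
      have hsurj : ∀ t : Emb K E, t = beta j0 (β.symm t) := by
        intro t
        rw [← hβa, Equiv.apply_symm_apply]
      refine at_prime hr x hl hQp hrQ ?_ ?_ hσ (fun t => c (β.symm t)) (fun t => e (β.symm t))
        (fun t => hpat.lt _) ?_ ?_ (fun t => hpat.dvd _) ?_ ?_
      · intro t1 t2 h12
        exact ⟨W t1 t2, hX2 t1 t2 h12 Q hQv⟩
      · intro a t
        exact hX3 a t Q hQv
      · obtain ⟨t, ht⟩ := hpat.ne
        refine ⟨β t, ?_⟩
        rw [Equiv.symm_apply_apply]
        intro h0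
        apply ht
        rw [h0]
        exact dvd_zero r
      · intro t
        have h1 := hpat.deg (β.symm t)
        rw [← hcomap, ← hsurj] at h1
        exact h1
      · intro t t' ht ht' hI
        have h1 := hpat.inj (β.symm t) (β.symm t') ht ht' (by
          rw [← hcomap, ← hcomap, ← hsurj, ← hsurj]
          exact hI)
        exact β.symm.injective h1
      · intro a
        have h1 := hprod a (by
          intro t h2
          rw [← hmemL, ← tO_beta] at h2
          exact hX3 a (beta j0 t) Q hQv h2)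
        rw [← hmemL, map_sub, map_one, map_prod] at h1
        have h2 : ∏ t, tO t (x a) ^ (c (β.symm t) *
            ((Ideal.absNorm v.asIdeal ^ e (β.symm t) - 1) / r)) =
            ∏ t : K →+* F, RingOfIntegers.mapRingHom j0 (em t (x a) ^ (c t *
            ((Ideal.absNorm v.asIdeal ^ e t - 1) / r))) := by
          rw [← Equiv.prod_comp β]
          apply Finset.prod_congr rfl
          intro t _
          rw [Equiv.symm_apply_apply, map_pow, ← tO_beta, hβa]
        rw [h2]
        exact h1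
  have hsum := hlim.add hXd
  rw [add_zero] at hsum
  have hrs : (0 : ℝ) < (r : ℝ) ^ s := by
    have : (0 : ℝ) < r := by exact_mod_cast hr.pos
    positivity
  have hlt : (((QuotientGroup.mk : GK E → GK E ⧸ Nn (T := Emb K E) (GF E) r b) ''
      BadAll r b).ncard : ℝ) / (Nat.card (GK E ⧸ Nn (T := Emb K E) (GF E) r b) : ℝ) <
      ((r : ℝ) ^ (Fintype.card (Emb K E)) + 1) / (r : ℝ) ^ s := by
    have hc : 0 < Nat.card (GK E ⧸ Nn (T := Emb K E) (GF E) r b) := Nat.card_pos
    have hc' : (0 : ℝ) < (Nat.card (GK E ⧸ Nn (T := Emb K E) (GF E) r b) : ℝ) := by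
      exact_mod_cast hc
    rw [div_lt_div_iff₀ hc' hrs]
    have h1 : ((((QuotientGroup.mk : GK E → GK E ⧸ Nn (T := Emb K E) (GF E) r b) ''
      BadAll r b).ncard : ℝ)) * (r : ℝ) ^ s ≤ (r : ℝ) ^ (Fintype.card (Emb K E)) *
      (Nat.card (GK E ⧸ Nn (T := Emb K E) (GF E) r b) : ℝ) := by
      exact_mod_cast hcount
    nlinarith
  filter_upwards [hsum.eventually (gt_mem_nhds hlt)] with M hM
  calc dens P M ≤ dens (fun v => (∃ σ ∈ BadAll r b, IsFrob v σ) ∨ X v) M :=
        Pool.Agent.W528.Ord.dens_mono hsub M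
    _ ≤ _ := Pool.Agent.W528.Ord.dens_or _ _ M
    _ ≤ _ := hM.le

end

end Pool.Agent.H218.TH.TCB2
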